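import Pool.Agent.E8helper8.EC.Stm

/-!
Project EC, piece SKEL: skeletal induction from `SSet.rlp_monomorphisms`.
-/

set_option autoImplicit false

open CategoryTheory Simplicial Opposite

namespace Pool.Agent.E8helper5.EC

open Pool.Agent.E8helper8.EC

/-- the total simplicial set -/
def Q (X : SSet.{0}) (A : ℕ → Type) (P : ∀ n, X.obj (op ⦋n⦌) → A n → Prop)
    (r : ∀ (n m : ℕ), X.obj (op ⦋n⦌) → (⦋m⦌ ⟶ ⦋n⦌) → A n → A m)
    (h1 : ∀ n w a, r n n w (𝟙 _) a = a)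
    (h2 : ∀ n m l (w : X.obj (op ⦋n⦌)) (α : ⦋m⦌ ⟶ ⦋n⦌) (β : ⦋l⦌ ⟶ ⦋m⦌) a,
      r n l w (β ≫ α) a = r m l (X.map α.op w) β (r n m w α a))
    (h3 : ∀ n m w (α : ⦋m⦌ ⟶ ⦋n⦌) a, P n w a → P m (X.map α.op w) (r n m w α a)) :
    SSet.{0} where
  obj n := {z : X.obj n × A n.unop.len // P n.unop.len z.1 z.2}
  map {n m} f := ↾fun z => ⟨(X.map f z.1.1, r n.unop.len m.unop.len z.1.1 f.unop z.1.2),
    h3 _ _ _ f.unop _ z.2⟩
  map_id n := by
    ext z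
    · exact X.map_id_apply _ z.1.1
    · exact h1 _ _ _
  map_comp {n m l} f g := by
    ext z
    · exact X.map_comp_apply f g z.1.1
    · exact h2 _ _ _ _ _ _ _

section

variable {X : SSet.{0}} {A : ℕ → Type} {P : ∀ n, X.obj (op ⦋n⦌) → A n → Prop}
    {r : ∀ (n m : ℕ), X.obj (op ⦋n⦌) → (⦋m⦌ ⟶ ⦋n⦌) → A n → A m}
    (h1 : ∀ n w a, r n n w (𝟙 _) a = a)
    (h2 : ∀ n m l (w : X.obj (op ⦋n⦌)) (α : ⦋m⦌ ⟶ ⦋n⦌) (β : ⦋l⦌ ⟶ ⦋m⦌) a,
      r n l w (β ≫ α) a = r m l (X.map α.op w) β (r n m w α a))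
    (h3 : ∀ n m w (α : ⦋m⦌ ⟶ ⦋n⦌) a, P n w a → P m (X.map α.op w) (r n m w α a))

/-- the projection -/
def qp : Q X A P r h1 h2 h3 ⟶ X where
  app _ := ↾fun z => z.1.1
  naturality _ _ _ := rfl

theorem lift_one (n : ℕ) (h4 : ∀ (w : X.obj (op ⦋n⦌))
    (b : ∀ (m : ℕ) (s : ⦋m⦌ ⟶ ⦋n⦌), ¬ Function.Surjective s.toOrderHom → A m),
    (∀ m s hs, P m (X.map s.op w) (b m s hs)) →
    (∀ (m l : ℕ) (s : ⦋m⦌ ⟶ ⦋n⦌) (β : ⦋l⦌ ⟶ ⦋m⦌) (hs : ¬ Function.Surjective s.toOrderHom)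
      (hs' : ¬ Function.Surjective (β ≫ s).toOrderHom),
      r m l (X.map s.op w) β (b m s hs) = b l (β ≫ s) hs') →
    ∃ a : A n, P n w a ∧ ∀ m s hs, r n m w s a = b m s hs) :
    HasLiftingProperty (SSet.boundary.{0} n).ι (qp h1 h2 h3) := by
  constructor
  intro f g sq
  -- the simplex of the boundary
  let e : ∀ (m : ℕ) (s : ⦋m⦌ ⟶ ⦋n⦌) (hs : ¬ Function.Surjective s.toOrderHom),
      ((SSet.boundary.{0} n : SSet.{0})).obj (op ⦋m⦌) :=
    fun m s hs => ⟨SSet.stdSimplex.objEquiv.symm s, hs⟩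
  let w : X.obj (op ⦋n⦌) := SSet.yonedaEquiv g
  have hw : ∀ (m : ℕ) (s : ⦋m⦌ ⟶ ⦋n⦌) (hs), (f.app (op ⦋m⦌) (e m s hs)).1.1 = X.map s.op w := by
    intro m s hs
    have h := sq.w
    have h5 : (qp h1 h2 h3).app (op ⦋m⦌) (f.app (op ⦋m⦌) (e m s hs)) =
        g.app (op ⦋m⦌) ((SSet.boundary.{0} n).ι.app (op ⦋m⦌) (e m s hs)) := by
      have := congr_arg (fun (F : (SSet.boundary.{0} n : SSet.{0}) ⟶ X) =>
        F.app (op ⦋m⦌) (e m s hs)) h
      exact this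
    have h6 : g = SSet.yonedaEquiv.symm w := (Equiv.symm_apply_apply _ g).symm
    rw [h6] at h5
    exact h5
  have hmap : ∀ (m l : ℕ) (s : ⦋m⦌ ⟶ ⦋n⦌) (β : ⦋l⦌ ⟶ ⦋m⦌) (hs) (hs'),
      f.app (op ⦋l⦌) (e l (β ≫ s) hs') =
        (Q X A P r h1 h2 h3).map β.op (f.app (op ⦋m⦌) (e m s hs)) := by
    intro m l s β hs hs'
    exact NatTrans.naturality_apply f β.op (e m s hs)
  obtain ⟨a, ha, hab⟩ := h4 w (fun m s hs => (f.app (op ⦋m⦌) (e m s hs)).1.2)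
    (fun m s hs => by
      have h := (f.app (op ⦋m⦌) (e m s hs)).2
      rw [hw] at h
      exact h)
    (fun m l s β hs hs' => by
      have h := hmap m l s β hs hs'
      have h7 := congr_arg (fun z => z.1.2) h
      refine Eq.trans ?_ h7.symm
      show r m l _ β _ = r m l _ β _
      rw [hw])
  refine ⟨⟨⟨SSet.yonedaEquiv.symm ⟨(w, a), ha⟩, ?_, ?_⟩⟩⟩
  · ext k t
    obtain ⟨t, ht⟩ := t
    obtain ⟨s, rfl⟩ := SSet.stdSimplex.objEquiv.symm.surjective t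
    have hs : ¬ Function.Surjective s.toOrderHom := ht
    apply Subtype.ext
    refine Prod.ext ?_ ?_
    · exact (hw k.unop.len s hs).symm
    · exact hab k.unop.len s hs
  · exact (SSet.yonedaEquiv_symm_comp _ _).trans (Equiv.symm_apply_apply _ g)

end

/-- the empty simplicial set -/
def Emp : SSet.{0} where
  obj _ := PEmpty
  map _ := ↾fun z => z
  map_id _ := rfl
  map_comp _ _ := rfl

/-- the map from the empty simplicial set -/
def Emp.to (Y : SSet.{0}) : Emp ⟶ Y where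
  app _ := ↾fun z => z.elim
  naturality _ _ _ := by
    ext z
    exact z.elim

instance (Y : SSet.{0}) : Mono (Emp.to Y) where
  right_cancellation {Z} u v _ := by
    ext k z
    exact (u.app k z : PEmpty).elim

/-- **SKEL**. -/
theorem t_SKEL : S_SKEL := by
  intro X A P r h1 h2 h3 h4
  have hI : SSet.modelCategoryQuillen.I.rlp (qp h1 h2 h3) := by
    rintro _ _ _ ⟨n⟩
    exact lift_one h1 h2 h3 n (h4 n)
  rw [← SSet.rlp_monomorphisms] at hI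
  have h5 := hI (Emp.to X) (MorphismProperty.monomorphisms.infer_property _)
  have sq : CommSq (Emp.to (Q X A P r h1 h2 h3)) (Emp.to X) (qp h1 h2 h3) (𝟙 X) := ⟨by
    ext k z
    exact (z : PEmpty).elim⟩
  let σ : X ⟶ Q X A P r h1 h2 h3 := sq.lift
  have hσ : σ ≫ qp h1 h2 h3 = 𝟙 X := sq.fac_right
  have hσ1 : ∀ n (w : X.obj (op ⦋n⦌)), (σ.app (op ⦋n⦌) w).1.1 = w := by
    intro n w
    have := congr_arg (fun (F : X ⟶ X) => F.app (op ⦋n⦌) w) hσ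
    exact this
  refine ⟨fun n w => (σ.app (op ⦋n⦌) w).1.2, fun n w => ?_, fun n m w α => ?_⟩
  · have h := (σ.app (op ⦋n⦌) w).2
    rw [hσ1] at h
    exact h
  · have h : σ.app (op ⦋m⦌) (X.map α.op w) =
        (Q X A P r h1 h2 h3).map α.op (σ.app (op ⦋n⦌) w) := NatTrans.naturality_apply σ α.op w
    have h7 := congr_arg (fun z => z.1.2) h
    refine Eq.trans ?_ h7.symm
    show r n m _ α _ = r n m _ α _
    rw [hσ1]

end Pool.Agent.E8helper5.EC
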